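import Pool.Agent.N561.A.Defs

/-!
# Small vertices: the kernel away from the imaginary axis, statements

All statements are about explicit functions; every `S_...` is a sub-task.
-/

set_option autoImplicit false

namespace Pool.Agent.N561

open Filter Finset Topology Metric
open Pool.Agent.W711.HT
open scoped Real

/-! ### Interpolation in `d` -/

/-- domain of the first interpolation -/
def DF : Set (ℂ × ℂ) := {p | 0 < p.2.im ∧ 2 * π * |p.1.im| < p.2.im ∧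
  2 * π * |p.1.re| + |p.2.re| < 2 * π}

/-- job A1: interpolation of `log R_d(φ)`, `Im φ > 0`, by Fourier series -/
def S_FOU : Prop := ∃ r : ℕ → ℂ × ℂ → ℂ,
  (∀ N : ℕ, 1 ≤ N → DifferentiableOn ℂ (r N) DF) ∧
  (∀ N d : ℕ, 1 ≤ N → ∀ φ : ℂ, ((d : ℂ) / N, φ) ∈ DF →
    Rp N d φ = Complex.exp (N * r N ((d : ℂ) / N, φ))) ∧
  ∀ K ⊆ DF, IsCompact K → TendstoUniformlyOn r (fun p => RR p.1 p.2) atTop K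

/-- domain of the second interpolation -/
def DA : Set (ℂ × ℂ) := {p | 2 * π * |p.1.re| + |p.2.re| < π}

/-- job A2: interpolation of `log R_d(ψ)` and `log S_d`, by Laplace integrals -/
def S_LAPL : Prop := ∃ (r : ℕ → ℂ × ℂ → ℂ) (s : ℕ → ℂ → ℂ),
  (∀ N : ℕ, 1 ≤ N → DifferentiableOn ℂ (r N) DA) ∧
  (∀ N : ℕ, 1 ≤ N → DifferentiableOn ℂ (s N) {δ : ℂ | 0 < δ.re ∧ δ.re < 1}) ∧
  (∀ N d : ℕ, 1 ≤ N → ∀ ψ : ℂ, ((d : ℂ) / N, ψ) ∈ DA →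
    Rp N d ψ = Complex.exp (N * r N ((d : ℂ) / N, ψ))) ∧
  (∀ N d : ℕ, 1 ≤ d → d < N → (Sd N d : ℂ) = Complex.exp (N * s N ((d : ℂ) / N))) ∧
  (∀ K ⊆ DA, IsCompact K → TendstoUniformlyOn r (fun p => RR p.1 p.2) atTop K) ∧
  ∀ K ⊆ {δ : ℂ | 0 < δ.re ∧ δ.re < 1}, IsCompact K →
    TendstoUniformlyOn s (fun δ => LS (π * δ) / π) atTop K

/-! ### The saddle point method for sums -/

/-- job A3: a sum whose critical point `z` is in the lower half plane; the contour is the rectangle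
of height exactly `|Im z|`, the terms of the upper half plane have the weight `exp (-2 π N y)` -/
def S_LAPW : Prop := ∀ (q : ℕ → ℂ → ℂ) (Q : ℂ → ℂ) (U : Set ℂ) (a b : ℝ) (z : ℂ)
  (A B : ℕ → ℕ), IsOpen U → (∀ᶠ N : ℕ in atTop, DifferentiableOn ℂ (q N) U) →
  DifferentiableOn ℂ Q U → TendstoUniformlyOn q Q atTop U →
  (∀ x y : ℝ, a ≤ x → x ≤ b → |y| ≤ -z.im → (x : ℂ) + y * Complex.I ∈ U) → z.im < 0 →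
  Tendsto (fun N : ℕ => (A N : ℝ) / N) atTop (𝓝 a) →
  Tendsto (fun N : ℕ => (B N : ℝ) / N) atTop (𝓝 b) →
  a < z.re → z.re < b → deriv Q z = 0 → (deriv (deriv Q) z).re < 0 →
  (∀ x : ℝ, a ≤ x → x ≤ b → x ≠ z.re → (Q (x + z.im * Complex.I)).re < (Q z).re) →
  (∀ y : ℝ, z.im ≤ y → y ≤ 0 → (Q (a + y * Complex.I)).re < (Q z).re ∧
    (Q (b + y * Complex.I)).re < (Q z).re) →
  (∀ y : ℝ, 0 ≤ y → y ≤ -z.im → (Q (a + y * Complex.I)).re - 2 * π * y < (Q z).re ∧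
    (Q (b + y * Complex.I)).re - 2 * π * y < (Q z).re) →
  (∀ x : ℝ, a ≤ x → x ≤ b → (Q (x - z.im * Complex.I)).re + 2 * π * z.im < (Q z).re) →
  Tendsto (fun N : ℕ => Real.log ‖∑ d ∈ Ico (A N) (B N),
    Complex.exp (N * q N ((d : ℂ) / N))‖ / N) atTop (𝓝 (Q z).re)

/-! ### The potential -/

/-- the polynomial of the inequality `S_POLY` -/
noncomputable def NP (H k κ : ℝ) : ℝ :=
  (κ ^ 2 + (H ^ 2 - 1)) * (H + k) ^ 2 + 2 * H * κ * (1 - 2 * H * k - 3 * (k ^ 2 + (H ^ 2 - 1))) -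
    8 * (H ^ 2 - 1) * (√(1 - κ ^ 2) * √(1 - k ^ 2)) + 1 - 6 * H * k + 9 * (k ^ 2 + (H ^ 2 - 1))

/-- job A4a: the inequality behind `S_FLAT` -/
def S_POLY : Prop := ∀ H k κ : ℝ, 1 ≤ H → H ≤ 71 / 50 → -(2 / 5) ≤ k → k ≤ 3 / 5 →
  H ≤ 3127 / 2000 - 17 / 20 * k → -1 ≤ κ → κ ≤ 1 →
  (k < κ → (H - κ) ^ 4 * (H + k) ^ 2 < (H + κ) ^ 2 * NP H k κ) ∧
  (κ < k → (H + κ) ^ 2 * NP H k κ < (H - κ) ^ 4 * (H + k) ^ 2)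

/-- job A4b: on the horizontal line through the critical point -/
def S_FLAT : Prop := ∀ φ ∈ GG, 0 < φ.re →
  (dst 0 φ).im < 0 ∧ 0 < (dst 0 φ).re ∧ (dst 0 φ).re < 1 / 2 ∧ 2 * π * |(dst 0 φ).im| < φ.im ∧
  ∀ x : ℝ, 0 ≤ x → x ≤ 1 / 2 → x ≠ (dst 0 φ).re →
    (TH 0 φ (x + (dst 0 φ).im * Complex.I)).re < (sg 0 φ).re

/-- job A5: on the other sides of the rectangle -/
def S_SIDE : Prop := ∀ φ ∈ GG, 0 < φ.re → ∃ a₀ b₀ : ℝ, 0 < a₀ ∧ a₀ < (dst 0 φ).re ∧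
  (dst 0 φ).re < b₀ ∧ b₀ < 1 / 2 ∧ ∀ a b : ℝ, 0 < a → a ≤ a₀ → b₀ ≤ b → b < 1 / 2 →
  (∀ y : ℝ, (dst 0 φ).im ≤ y → y ≤ 0 → (TH 0 φ (a + y * Complex.I)).re < (sg 0 φ).re ∧
    (TH 0 φ (b + y * Complex.I)).re < (sg 0 φ).re) ∧
  (∀ y : ℝ, 0 ≤ y → y ≤ -(dst 0 φ).im →
    (TH 0 φ (a + y * Complex.I)).re - 2 * π * y < (sg 0 φ).re ∧
    (TH 0 φ (b + y * Complex.I)).re - 2 * π * y < (sg 0 φ).re) ∧
  ∀ x : ℝ, a ≤ x → x ≤ b →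
    (TH 0 φ (x - (dst 0 φ).im * Complex.I)).re + 2 * π * (dst 0 φ).im < (sg 0 φ).re

/-- the properties of the potential near `(0, φ₀)` -/
structure SGP (φ₀ : ℂ) (r c C : ℝ) : Prop where
  hr : 0 < r ∧ r ≤ 1 / 10
  hc : 0 < c
  sub : ball φ₀ r ⊆ GG
  san : DifferentiableOn ℂ (fun p : ℂ × ℂ => sg p.1 p.2) (Rc r r ×ˢ ball φ₀ r)
  dan : DifferentiableOn ℂ (fun p : ℂ × ℂ => dst p.1 p.2) (Rc r r ×ˢ ball φ₀ r)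
  sbd : ∀ ψ ∈ Rc r r, ∀ φ ∈ ball φ₀ r, ‖sg ψ φ‖ ≤ C
  ev : ∀ ψ ∈ Rc r r, ∀ φ ∈ ball φ₀ r, sg (-ψ) φ = sg ψ φ
  conc : ∀ ψ ∈ Rc r r, ∀ φ ∈ ball φ₀ r, (deriv (deriv fun z => sg z φ) ψ).re ≤ -c
  dcos : ∀ ψ ∈ Rc r r, ∀ φ ∈ ball φ₀ r, Complex.cos (2 * π * dst ψ φ) =
    (1 - Complex.cos ψ * Complex.cos φ) / (2 + Complex.cos ψ + Complex.cos φ)
  dpos : ∀ ψ ∈ Rc r r, ∀ φ ∈ ball φ₀ r, 0 < (dst ψ φ).re ∧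
    2 * π * (dst ψ φ).re + |ψ.re| < π ∧ 2 * π * |(dst ψ φ).im| < φ.im
  dder : ∀ ψ ∈ Rc r r, ∀ φ ∈ ball φ₀ r, HasDerivAt (TH ψ φ) 0 (dst ψ φ)
  dneg : ∀ ψ ∈ Rc r r, ∀ φ ∈ ball φ₀ r, (deriv (deriv (TH ψ φ)) (dst ψ φ)).re < 0
  sder1 : ∀ ψ ∈ Rc r r, ∀ φ ∈ ball φ₀ r,
    HasDerivAt (fun z => sg z φ) (-(1 / (2 * π)) * Lg (2 * π * dst ψ φ) ψ) ψ
  sder2 : ∀ ψ ∈ Rc r r, ∀ φ ∈ ball φ₀ r,
    HasDerivAt (fun z => sg ψ z) (-(1 / (2 * π)) * Lg (2 * π * dst ψ φ) φ) φ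

/-- job A6: the potential -/
def S_SGP : Prop := ∀ φ₀ ∈ GG, ∃ r c C : ℝ, SGP φ₀ r c C

/-- job A7: the potential for `ψ = 0` -/
def S_SF : Prop :=
  (∀ w : ℂ, |w.re| < π / 2 → HasDerivAt gdi (1 / Complex.cos w) w ∧
    (gdi w).re = Real.artanh (Real.sin w.re / Real.cosh w.im) ∧
    (gdi w).im = Real.arctan (Real.sinh w.im / Real.cos w.re)) ∧
  (∀ φ : ℂ, |φ.re| < π → HasDerivAt sf (-(1 / π) * gdi (φ / 2)) φ ∧ sf (-φ) = sf φ ∧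
    (sf φ).re = sx φ.re +
      1 / π * ∫ y in (0:ℝ)..φ.im, Real.arctan (Real.sinh (y / 2) / Real.cos (φ.re / 2))) ∧
  (∀ x : ℝ, |x| < π → sf x = sx x ∧
    HasDerivAt sx (-(1 / π) * Real.log ((1 + Real.sin (x / 2)) / Real.cos (x / 2))) x) ∧
  (∀ φ ∈ GG, sg 0 φ = sf φ) ∧ ∀ φ ∈ GG, bet ≤ (sg 0 φ).re

/-! ### Asymptotics of the kernel -/

/-- job A8: asymptotics of the lower half of the kernel, `ψ` near `0` -/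
def S_NEAR : Prop := ∀ φ₀ ∈ GG, ∃ r : ℝ, 0 < r ∧ ball φ₀ r ⊆ GG ∧ ∀ ε : ℝ, 0 < ε →
  ∀ᶠ N : ℕ in atTop, ∀ ψ ∈ Rc r r, ∀ φ ∈ ball φ₀ r,
    k0 N ψ φ ≠ 0 ∧ |Real.log ‖k0 N ψ φ‖ - N * (sg ψ φ).re| ≤ ε * N

/-- the nodes -/
noncomputable def lat (N n : ℕ) : ℝ := π - π * (2 * n + 1) / N

/-- job B1: monotonicity at the nodes, from a three-term recurrence -/
def S_MONO : Prop := ∀ K ⊆ GG, IsCompact K → ∀ᶠ N : ℕ in atTop, ∀ φ ∈ K, ∀ n m : ℕ, n ≤ m →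
  2 * m + 1 ≤ N → ‖k0 N (lat N n) φ‖ ≤ ‖k0 N (lat N m) φ‖

/-- job B2: bound away from `ψ = 0` -/
def S_FAR : Prop := ∀ φ₀ ∈ GG, ∀ ρ : ℝ, 0 < ρ → ∃ κ r : ℝ, 0 < κ ∧ 0 < r ∧ ball φ₀ r ⊆ GG ∧
  ∀ᶠ N : ℕ in atTop, ∀ x y : ℝ, ρ ≤ |x| → |x| ≤ π → |y| ≤ 1 / N → ∀ φ ∈ ball φ₀ r,
    ‖k0 N (x + y * Complex.I) φ‖ ≤ Real.exp (N * ((sg 0 φ).re - κ))

/-- job C: bounds near the real axis -/
def S_RB : Prop :=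
  (∀ x₁ ε : ℝ, 0 < x₁ → x₁ ≤ 33 / 16 → 0 < ε → ∃ τ : ℝ, 0 < τ ∧ ∀ᶠ N : ℕ in atTop,
    ∀ x y x' y' : ℝ, x₁ ≤ |x| → |x| ≤ π → |y| ≤ τ → |x'| ≤ π → |y'| ≤ τ →
    ‖ker N (x' + y' * Complex.I) (x + y * Complex.I)‖ ≤ Real.exp (N * (sx x₁ + ε)) ∧
    ‖k0 N (x' + y' * Complex.I) (x + y * Complex.I)‖ ≤ Real.exp (N * (sx x₁ + ε))) ∧
  ∀ ε : ℝ, 0 < ε → ∃ τ : ℝ, 0 < τ ∧ ∀ᶠ N : ℕ in atTop,
    ∀ x y x' y' : ℝ, |x| ≤ π → |y| ≤ τ → |x'| ≤ π → |y'| ≤ τ →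
    ‖ker N (x' + y' * Complex.I) (x + y * Complex.I)‖ ≤ Real.exp (N * (2 * bet + ε)) ∧
    ‖k0 N (x' + y' * Complex.I) (x + y * Complex.I)‖ ≤ Real.exp (N * (2 * bet + ε)) ∧
    ‖ker N (x' + y' * Complex.I) (x + y * Complex.I) -
      k0 N (x' + y' * Complex.I) (x + y * Complex.I)‖ ≤ Real.exp (N * ε)

/-! ### Critical points and paths of the small vertices -/

/-- the potential of a small vertex of valence `n` and weight `a` -/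
noncomputable def Vr (n : ℕ) (a : ℤ) (φ : ℂ) : ℝ :=
  (Complex.I * a * φ ^ 2 / (4 * π) + Complex.I * φ + n * sf φ).re

/-- the path: up at `x₁` to the height `y₁`, to `x₂`, up to the height of `z`, and along the
horizontal line through the critical point `z` -/
structure PathD (n : ℕ) (a : ℤ) (z : ℂ) (x₁ x₂ y₁ : ℝ) : Prop where
  zG : z ∈ GG
  zre : 0 ≤ z.re
  crit : Complex.I * a * z / (2 * π) + Complex.I - n / π * gdi (z / 2) = 0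
  ord : z.re < x₂ ∧ x₂ ≤ x₁ ∧ x₁ < 33 / 16 ∧ 0 < y₁ ∧ y₁ ≤ z.im
  in1 : ∀ x y : ℝ, |x| ≤ x₁ → 0 < y → y ≤ y₁ → (x + y * Complex.I : ℂ) ∈ GG
  in2 : ∀ x y : ℝ, |x| ≤ x₂ → y₁ ≤ y → y ≤ z.im → (x + y * Complex.I : ℂ) ∈ GG
  p1 : n * sx x₁ < Vr n a z
  p2 : (n - 1) * (2 * bet) < Vr n a z
  side1 : ∀ y : ℝ, 0 < y → y ≤ y₁ → Vr n a (x₁ + y * Complex.I) < Vr n a z ∧
    Vr n a (-x₁ + y * Complex.I) < Vr n a z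
  hor1 : ∀ x : ℝ, x₂ ≤ |x| → |x| ≤ x₁ → Vr n a (x + y₁ * Complex.I) < Vr n a z
  side2 : ∀ y : ℝ, y₁ ≤ y → y ≤ z.im → Vr n a (x₂ + y * Complex.I) < Vr n a z ∧
    Vr n a (-x₂ + y * Complex.I) < Vr n a z
  line : ∀ x : ℝ, |x| ≤ x₂ → x ≠ z.re → Vr n a (x + z.im * Complex.I) < Vr n a z

/-- job D: critical points and paths -/
def S_PATH : Prop := ∀ (n : ℕ) (a : ℤ), 1 ≤ n → a ≤ 0 → 4 ≤ (n : ℤ) - a →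
  ∃ (z : ℂ) (x₁ x₂ y₁ : ℝ), PathD n a z x₁ x₂ y₁

/-! ### Perturbation of critical points -/

/-- job E1: a strict maximum on a horizontal line through a critical point is stable -/
def S_PERT : Prop := ∀ (ι : Type) (l : Filter ι) (Q : ι → ℂ → ℂ) (Q₀ : ℂ → ℂ) (U : Set ℂ)
  (zs : ι → ℂ) (z₀ : ℂ) (x₁ x₂ : ℝ), IsOpen U → (∀ᶠ p in l, DifferentiableOn ℂ (Q p) U) →
  DifferentiableOn ℂ Q₀ U → TendstoUniformlyOn Q Q₀ l U → Tendsto zs l (𝓝 z₀) →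
  (∀ᶠ p in l, deriv (Q p) (zs p) = 0) →
  (∀ x : ℝ, x₁ ≤ x → x ≤ x₂ → (x + z₀.im * Complex.I : ℂ) ∈ U) → x₁ < z₀.re → z₀.re < x₂ →
  (deriv (deriv Q₀) z₀).re < 0 →
  (∀ x : ℝ, x₁ ≤ x → x ≤ x₂ → x ≠ z₀.re → (Q₀ (x + z₀.im * Complex.I)).re < (Q₀ z₀).re) →
  ∀ᶠ p in l, (deriv (deriv (Q p)) (zs p)).re < 0 ∧
    ∀ x : ℝ, x₁ ≤ x → x ≤ x₂ → x ≠ (zs p).re →
      (Q p (x + (zs p).im * Complex.I)).re < (Q p (zs p)).re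

/-- job E2: the critical point at a small vertex (`j + 1` neighbours) as a function of the variable
`ψ` of the parent, and the resulting function of `ψ`.  `g` is the term of the vertex, `Φ` the sum
of the functions of the `j` children -/
def S_HCG : Prop := ∀ (r c' C' : ℝ) (U : Set ℂ) (σ : ℂ → ℂ → ℂ) (g : ℂ → ℂ) (j : ℕ) (z₀ : ℂ)
  (x₂ : ℝ), 0 < r → 0 < c' → IsOpen U →
  DifferentiableOn ℂ (fun p : ℂ × ℂ => σ p.1 p.2) (Rc r r ×ˢ U) →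
  (∀ ψ ∈ Rc r r, ∀ φ ∈ U, ‖σ ψ φ‖ ≤ C') → (∀ ψ ∈ Rc r r, ∀ φ ∈ U, σ (-ψ) φ = σ ψ φ) →
  (∀ ψ ∈ Rc r r, ∀ φ ∈ U, (deriv (deriv fun z => σ z φ) ψ).re ≤ -c') → DifferentiableOn ℂ g U →
  |z₀.re| < x₂ → (∀ x : ℝ, |x| ≤ x₂ → (x + z₀.im * Complex.I : ℂ) ∈ U) →
  deriv (fun w => g w + (j + 1) * σ 0 w) z₀ = 0 →
  (deriv (deriv fun w => g w + (j + 1) * σ 0 w) z₀).re < 0 →
  (∀ x : ℝ, |x| ≤ x₂ → x ≠ z₀.re → (g (x + z₀.im * Complex.I) +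
    (j + 1) * σ 0 (x + z₀.im * Complex.I)).re < (g z₀ + (j + 1) * σ 0 z₀).re) →
  ∀ r₁ : ℝ, 0 < r₁ → ∃ ε₁ r₂ C₁ : ℝ, 0 < ε₁ ∧ 0 < r₂ ∧ r₂ ≤ r ∧ 0 < C₁ ∧
  ∀ (f : ℂ) (Φ : ℂ → ℂ), DifferentiableOn ℂ Φ U → (∀ φ ∈ U, ‖Φ φ - f - j * σ 0 φ‖ ≤ ε₁) →
    ∃ F zs : ℂ → ℂ, DifferentiableOn ℂ F (Rc r₂ r₂) ∧ DifferentiableOn ℂ zs (Rc r₂ r₂) ∧
      (∀ ψ ∈ Rc r₂ r₂, F (-ψ) = F ψ) ∧
      (∀ ψ ∈ Rc r₂ r₂, (deriv (deriv F) ψ).re ≤ -(c' / 2) ∧ ‖deriv (deriv F) ψ‖ ≤ C₁) ∧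
      ∀ ψ ∈ Rc r₂ r₂, ‖zs ψ - z₀‖ ≤ r₁ ∧ zs ψ ∈ U ∧
        deriv (fun w => g w + (Φ w + σ ψ w)) (zs ψ) = 0 ∧
        (deriv (deriv fun w => g w + (Φ w + σ ψ w)) (zs ψ)).re < 0 ∧
        (∀ x : ℝ, |x| ≤ x₂ → (x + (zs ψ).im * Complex.I : ℂ) ∈ U ∧ (x ≠ (zs ψ).re →
          (g (x + (zs ψ).im * Complex.I) + (Φ (x + (zs ψ).im * Complex.I) +
            σ ψ (x + (zs ψ).im * Complex.I))).re <
            (g (zs ψ) + (Φ (zs ψ) + σ ψ (zs ψ))).re)) ∧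
        F ψ = g (zs ψ) + (Φ (zs ψ) + σ ψ (zs ψ)) ∧
        HasDerivAt F (deriv (fun w => σ w (zs ψ)) ψ) ψ

/-- job E3: the critical point at a small vertex which is the root -/
def S_HCR : Prop := ∀ (U : Set ℂ) (g σ : ℂ → ℂ) (z₀ : ℂ) (x₂ : ℝ), IsOpen U →
  DifferentiableOn ℂ g U → DifferentiableOn ℂ σ U →
  |z₀.re| < x₂ → (∀ x : ℝ, |x| ≤ x₂ → (x + z₀.im * Complex.I : ℂ) ∈ U) →
  deriv (fun w => g w + σ w) z₀ = 0 → (deriv (deriv fun w => g w + σ w) z₀).re < 0 →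
  (∀ x : ℝ, |x| ≤ x₂ → x ≠ z₀.re → (g (x + z₀.im * Complex.I) +
    σ (x + z₀.im * Complex.I)).re < (g z₀ + σ z₀).re) →
  ∀ r₁ : ℝ, 0 < r₁ → ∃ ε₁ : ℝ, 0 < ε₁ ∧
  ∀ (f : ℂ) (Φ : ℂ → ℂ), DifferentiableOn ℂ Φ U → (∀ φ ∈ U, ‖Φ φ - f - σ φ‖ ≤ ε₁) →
    ∃ z : ℂ, ‖z - z₀‖ ≤ r₁ ∧ z ∈ U ∧ deriv (fun w => g w + Φ w) z = 0 ∧
      (deriv (deriv fun w => g w + Φ w) z).re < 0 ∧
      ∀ x : ℝ, |x| ≤ x₂ → (x + z.im * Complex.I : ℂ) ∈ U ∧ (x ≠ z.re →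
        (g (x + z.im * Complex.I) + Φ (x + z.im * Complex.I)).re < (g z + Φ z).re)

end Pool.Agent.N561
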