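import Pool.Agent.W711.HT.Stm

/-!
# Small vertices: the kernel away from the imaginary axis, definitions

`ψ` is the variable of a large vertex, near `0`, and `φ` the variable of a small vertex, in the
region `GG`.
-/

set_option autoImplicit false

namespace Pool.Agent.N561

open Filter Finset Topology Metric
open Pool.Agent.W711.HT
open scoped Real

/-- the primitive of `log (2 cos w)` vanishing at `0` -/
noncomputable def LL (w : ℂ) : ℂ := w * ∫ t in (0:ℝ)..1, Complex.log (2 * Complex.cos (t * w))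

/-- the primitive of `log (2 sin w)` vanishing at `0` -/
noncomputable def LS (w : ℂ) : ℂ := w * ∫ t in (0:ℝ)..1, Complex.log (2 * Complex.sin (t * w))

/-- the limit of `log R_d(φ) / N`, `d = δ N` -/
noncomputable def RR (δ φ : ℂ) : ℂ := (LL (π * δ + φ / 2) + LL (π * δ - φ / 2)) / π

/-- the potential of the sum over `d` -/
noncomputable def TH (ψ φ δ : ℂ) : ℂ := RR δ ψ + RR δ φ - 4 * (LS (π * δ) / π)

/-- the critical point of the sum over `d` -/
noncomputable def dst (ψ φ : ℂ) : ℂ := 1 / π * Complex.arctan (Complex.cos (ψ / 2) *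
  Complex.cos (φ / 2) / (1 - Complex.sin (ψ / 2) ^ 2 * Complex.sin (φ / 2) ^ 2) ^ (1 / 2 : ℂ))

/-- the critical value of the sum over `d` -/
noncomputable def sg (ψ φ : ℂ) : ℂ := TH ψ φ (dst ψ φ)

/-- the inverse of the Gudermannian function -/
noncomputable def gdi (w : ℂ) : ℂ := Complex.log ((1 + Complex.sin w) / Complex.cos w)

/-- the value `sg 0 φ` -/
noncomputable def sf (φ : ℂ) : ℂ := (2 * bet : ℝ) - φ / π * ∫ t in (0:ℝ)..1, gdi (t * φ / 2)

/-- the value `sf x` for real `x` -/
noncomputable def sx (x : ℝ) : ℝ := 2 * bet -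
  2 / π * ∫ t in (0:ℝ)..(x / 2), Real.log ((1 + Real.sin t) / Real.cos t)

/-- the region of the variables of the small vertices -/
def GG : Set ℂ := {φ | |φ.re| < 33 / 16 ∧ 0 < φ.im ∧ φ.im < 39 / 20 ∧
  -1 < Real.cos φ.re * Real.cosh φ.im}

/-- the lower half of the kernel, `d < N / 2` -/
noncomputable def k0 (N : ℕ) (ψ φ : ℂ) : ℂ :=
  ∑ d ∈ range ((N + 1) / 2), Rp N d ψ * Rp N d φ / (Sd N d : ℂ) ^ 4

end Pool.Agent.N561
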