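import Pool.Agent.N119.VS.Flat

/-!
# Small vertices: the other sides of the rectangle, `S_SIDE`
-/

set_option autoImplicit false

namespace Pool.Agent.N561.SD

open Filter Topology Metric Set
open Pool.Agent.W711.HT Pool.Agent.N561 Pool.Agent.N119.VS
open scoped Real

/-- the conditions at a point of the rectangle -/
lemma mem2 {φ : ℂ} (h0 : 0 < φ.re) (h1 : φ.re < 33 / 16) {s v : ℝ} (hs : 0 ≤ s)
    (hs1 : s ≤ 1 / 2) (hv : v ≠ 0 ∨ (0 < s ∧ s < 1 / 2)) (hv1 : 2 * π * |v| < φ.im) :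
    (π * ((s : ℂ) + v * Complex.I) ∈ WS ∧ π * ((s : ℂ) + v * Complex.I) ∈ WC) ∧
    π * ((s : ℂ) + v * Complex.I) + φ / 2 ∈ WC ∧
    π * ((s : ℂ) + v * Complex.I) - φ / 2 ∈ WC := by
  rcases hv with hv | ⟨hs2, hs3⟩
  · obtain ⟨⟨m1, m2⟩, ⟨m3, m4⟩, m5⟩ := mem_conds h0 h1 hs hs1 hv hv1
    simp only [zero_div, add_zero] at m2
    exact ⟨⟨m1, m2⟩, m4, m5⟩
  · have hp := Real.pi_pos
    have hp3 := Real.pi_gt_three
    have hvv : -|v| ≤ v ∧ v ≤ |v| := ⟨neg_abs_le v, le_abs_self v⟩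
    have b1 : 0 < π * s := by positivity
    have b2 : π * s < π / 2 := by nlinarith
    have b3 : π * |v| < φ.im / 2 := by linarith
    have b4 : π * v ≤ π * |v| := by nlinarith
    have b5 : -(π * |v|) ≤ π * v := by nlinarith
    have r1 : (π * ((s : ℂ) + v * Complex.I)).re = π * s := by simp
    have r2 : (π * ((s : ℂ) + v * Complex.I)).im = π * v := by simp
    have r3 : (φ / 2).re = φ.re / 2 := by simp
    have r4 : (φ / 2).im = φ.im / 2 := by simp
    refine ⟨⟨⟨?_, ?_, ?_⟩, ⟨?_, ?_⟩⟩, ⟨?_, ?_⟩, ⟨?_, ?_⟩⟩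
    · rw [r1]; linarith
    · rw [r1]; linarith
    · left; rw [r1]; exact b1
    · rw [r1, abs_of_pos b1]; linarith
    · left; rw [r1, abs_of_pos b1]; exact b2
    · rw [Complex.add_re, r1, r3, abs_of_nonneg (by linarith)]; linarith
    · right; rw [Complex.add_im, r2, r4]; apply ne_of_gt; linarith
    · rw [Complex.sub_re, r1, r3, abs_lt]; constructor <;> linarith
    · right; rw [Complex.sub_im, r2, r4]; apply ne_of_lt; linarith

lemma log2_im (z : ℂ) : (Complex.log (2 * z)).im = Complex.arg z := by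
  rw [Complex.log_im]
  have : (2 : ℂ) * z = ((2 : ℝ) : ℂ) * z := by norm_num
  rw [this, Complex.arg_real_mul z (by norm_num)]

/-- the derivative in the imaginary direction -/
lemma dv {φ : ℂ} (h0 : 0 < φ.re) (h1 : φ.re < 33 / 16) {s v : ℝ} (hs : 0 ≤ s)
    (hs1 : s ≤ 1 / 2) (hv : v ≠ 0 ∨ (0 < s ∧ s < 1 / 2)) (hv1 : 2 * π * |v| < φ.im) :
    HasDerivAt (fun v : ℝ => (TH 0 φ (s + v * Complex.I)).re)
      (-(2 * Complex.arg (Complex.cos (π * ((s : ℂ) + v * Complex.I))) +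
        (Complex.arg (Complex.cos (π * ((s : ℂ) + v * Complex.I) + φ / 2)) +
        Complex.arg (Complex.cos (π * ((s : ℂ) + v * Complex.I) - φ / 2))) -
        4 * Complex.arg (Complex.sin (π * ((s : ℂ) + v * Complex.I))))) v := by
  obtain ⟨⟨m1, m2⟩, m4, m5⟩ := mem2 h0 h1 hs hs1 hv hv1
  have d1 := TH_deriv (ψ := 0) (φ := φ) (δ := (s : ℂ) + v * Complex.I) m1
    (by simpa using m2) (by simpa using m2) m4 m5
  simp only [zero_div, add_zero, sub_zero] at d1
  have d2 : HasDerivAt (fun v : ℝ => (s : ℂ) + v * Complex.I) Complex.I v := by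
    have := ((Complex.ofRealCLM.hasDerivAt (x := v)).mul_const Complex.I).const_add (s : ℂ)
    simpa using this
  have d3 := HasDerivAt.comp v d1 d2
  have d4 := Complex.reCLM.hasFDerivAt.comp_hasDerivAt v d3
  refine d4.congr_deriv ?_
  have e : ∀ z : ℂ, Complex.reCLM (z * Complex.I) = -z.im := by
    intro z
    simp
  rw [e]
  simp only [Complex.sub_im, Complex.add_im, Complex.mul_im, Complex.re_ofNat, Complex.im_ofNat,
    zero_mul, add_zero, log2_im]
  ring

/-- continuity -/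
lemma cts {φ : ℂ} (h0 : 0 < φ.re) (h1 : φ.re < 33 / 16) {s v : ℝ} (hs : 0 ≤ s)
    (hs1 : s ≤ 1 / 2) (hv : v ≠ 0 ∨ (0 < s ∧ s < 1 / 2)) (hv1 : 2 * π * |v| < φ.im) :
    ContinuousAt (fun p : ℝ × ℝ => (TH 0 φ (p.1 + p.2 * Complex.I)).re) (s, v) := by
  obtain ⟨⟨m1, m2⟩, m4, m5⟩ := mem2 h0 h1 hs hs1 hv hv1
  have d1 := (TH_deriv (ψ := 0) (φ := φ) (δ := (s : ℂ) + v * Complex.I) m1
    (by simpa using m2) (by simpa using m2) m4 m5).continuousAt
  have d2 : ContinuousAt (fun p : ℝ × ℝ => (p.1 : ℂ) + p.2 * Complex.I) (s, v) := by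
    have : Continuous (fun p : ℝ × ℝ => (p.1 : ℂ) + p.2 * Complex.I) := by fun_prop
    exact this.continuousAt
  have d3 : ContinuousAt (fun p : ℝ × ℝ => TH 0 φ (p.1 + p.2 * Complex.I)) (s, v) :=
    ContinuousAt.comp (f := fun p : ℝ × ℝ => (p.1 : ℂ) + p.2 * Complex.I) (g := TH 0 φ)
      (x := (s, v)) d1 d2
  exact Complex.continuous_re.continuousAt.comp d3

/-- the two functions with the same imaginary part -/
lemma pair {α β Y : ℝ} (hα : 0 < α ∧ α < π) (hβ : -(π / 2) < β ∧ β < π / 2)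
    (hs : 0 < α + β ∧ α + β < π) (hY : 0 < Y) :
    -π < Complex.arg (Complex.cos (α + Y * Complex.I)) +
      Complex.arg (Complex.cos (β + Y * Complex.I)) := by
  have hp := Real.pi_pos
  obtain ⟨z1, hz1⟩ : ∃ z1, z1 = Complex.cos (α + Y * Complex.I) := ⟨_, rfl⟩
  obtain ⟨z2, hz2⟩ : ∃ z2, z2 = Complex.cos (β + Y * Complex.I) := ⟨_, rfl⟩
  have r1 : ((α : ℂ) + Y * Complex.I).re = α := by simp
  have r2 : ((α : ℂ) + Y * Complex.I).im = Y := by simp
  have r3 : ((β : ℂ) + Y * Complex.I).re = β := by simp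
  have r4 : ((β : ℂ) + Y * Complex.I).im = Y := by simp
  have a1 : z1.re = Real.cos α * Real.cosh Y := by rw [hz1, cos_re', r1, r2]
  have a2 : z1.im = -(Real.sin α * Real.sinh Y) := by rw [hz1, cos_im', r1, r2]
  have a3 : z2.re = Real.cos β * Real.cosh Y := by rw [hz2, cos_re', r3, r4]
  have a4 : z2.im = -(Real.sin β * Real.sinh Y) := by rw [hz2, cos_im', r3, r4]
  have hch : 0 < Real.cosh Y := Real.cosh_pos Y
  have hsh : 0 < Real.sinh Y := Real.sinh_pos_iff.2 hY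
  have hc2 : 0 < z2.re := by
    rw [a3]
    exact mul_pos (Real.cos_pos_of_mem_Ioo ⟨hβ.1, hβ.2⟩) hch
  have b1 : -π < Complex.arg z1 := Complex.neg_pi_lt_arg z1
  have b2 : -(π / 2) < Complex.arg z2 := by
    have := Complex.abs_arg_lt_pi_div_two_iff.2 (Or.inl hc2 : 0 < z2.re ∨ z2 = 0)
    exact (abs_lt.1 this).1
  have him : (z1 * z2).im < 0 := by
    have e1 : (z1 * z2).im = -(Real.sin (α + β) * (Real.sinh Y * Real.cosh Y)) := by
      rw [Complex.mul_im, a1, a2, a3, a4, Real.sin_add]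
      ring
    rw [e1]
    have := Real.sin_pos_of_pos_of_lt_pi hs.1 hs.2
    have h2 : 0 < Real.sin (α + β) * (Real.sinh Y * Real.cosh Y) := by positivity
    linarith
  rw [← hz1, ← hz2]
  by_contra hcon
  push Not at hcon
  have e1 : (z1 * z2).im = ‖z1‖ * ‖z2‖ * Real.sin (Complex.arg z1 + Complex.arg z2) := by
    have q1 : z1.re = ‖z1‖ * Real.cos (Complex.arg z1) := (Complex.norm_mul_cos_arg z1).symm
    have q2 : z1.im = ‖z1‖ * Real.sin (Complex.arg z1) := (Complex.norm_mul_sin_arg z1).symm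
    have q3 : z2.re = ‖z2‖ * Real.cos (Complex.arg z2) := (Complex.norm_mul_cos_arg z2).symm
    have q4 : z2.im = ‖z2‖ * Real.sin (Complex.arg z2) := (Complex.norm_mul_sin_arg z2).symm
    rw [Complex.mul_im, Real.sin_add]
    linear_combination z2.im * q1 + z2.re * q2 + ‖z1‖ * Real.cos z1.arg * q4 +
      ‖z1‖ * Real.sin z1.arg * q3
  have e2 : 0 ≤ Real.sin (Complex.arg z1 + Complex.arg z2) := by
    have e3 : Real.sin (Complex.arg z1 + Complex.arg z2) =
        Real.sin (-(Complex.arg z1 + Complex.arg z2) - π) := by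
      rw [Real.sin_sub_pi, Real.sin_neg, neg_neg]
    rw [e3]
    exact Real.sin_nonneg_of_nonneg_of_le_pi (by linarith) (by linarith)
  have e4 : 0 ≤ (z1 * z2).im := by
    rw [e1]
    positivity
  linarith

/-- the real and imaginary parts of the arguments -/
lemma prs (s v : ℝ) (φ : ℂ) : (π * ((s : ℂ) + v * Complex.I)).re = π * s ∧
    (π * ((s : ℂ) + v * Complex.I)).im = π * v ∧
    (π * ((s : ℂ) + v * Complex.I) + φ / 2).re = π * s + φ.re / 2 ∧
    (π * ((s : ℂ) + v * Complex.I) + φ / 2).im = π * v + φ.im / 2 ∧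
    (π * ((s : ℂ) + v * Complex.I) - φ / 2).re = π * s - φ.re / 2 ∧
    (π * ((s : ℂ) + v * Complex.I) - φ / 2).im = π * v - φ.im / 2 := by
  have r1 : (π * ((s : ℂ) + v * Complex.I)).re = π * s := by simp
  have r2 : (π * ((s : ℂ) + v * Complex.I)).im = π * v := by simp
  have r3 : (φ / 2).re = φ.re / 2 := by simp
  have r4 : (φ / 2).im = φ.im / 2 := by simp
  refine ⟨r1, r2, ?_, ?_, ?_, ?_⟩
  · rw [Complex.add_re, r1, r3]
  · rw [Complex.add_im, r2, r4]
  · rw [Complex.sub_re, r1, r3]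
  · rw [Complex.sub_im, r2, r4]

/-- `s = 0` -/
lemma arg0 {φ : ℂ} (h0 : 0 < φ.re) (h1 : φ.re < 33 / 16) {v : ℝ} :
    Complex.arg (Complex.cos (π * (((0 : ℝ) : ℂ) + v * Complex.I))) = 0 ∧
    (v < 0 → Complex.arg (Complex.sin (π * (((0 : ℝ) : ℂ) + v * Complex.I))) = -(π / 2)) ∧
    (0 < v → Complex.arg (Complex.sin (π * (((0 : ℝ) : ℂ) + v * Complex.I))) = π / 2) ∧
    (2 * π * |v| < φ.im →
      -π < Complex.arg (Complex.cos (π * (((0 : ℝ) : ℂ) + v * Complex.I) + φ / 2)) +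
        Complex.arg (Complex.cos (π * (((0 : ℝ) : ℂ) + v * Complex.I) - φ / 2)) ∧
      Complex.arg (Complex.cos (π * (((0 : ℝ) : ℂ) + v * Complex.I) + φ / 2)) +
        Complex.arg (Complex.cos (π * (((0 : ℝ) : ℂ) + v * Complex.I) - φ / 2)) < 0) := by
  have hp := Real.pi_pos
  have hp3 := Real.pi_gt_three
  obtain ⟨r1, r2, r3, r4, r5, r6⟩ := prs 0 v φ
  rw [mul_zero] at r1 r3 r5
  refine ⟨?_, fun hv => ?_, fun hv => ?_, fun hv => ?_⟩
  · have e1 : (Complex.cos (π * (((0 : ℝ) : ℂ) + v * Complex.I))).re = Real.cosh (π * v) := by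
      rw [cos_re', r1, r2, Real.cos_zero, one_mul]
    have e2 : (Complex.cos (π * (((0 : ℝ) : ℂ) + v * Complex.I))).im = 0 := by
      rw [cos_im', r1, r2, Real.sin_zero, zero_mul, neg_zero]
    rw [Complex.arg_eq_zero_iff]
    exact ⟨by rw [e1]; exact (Real.cosh_pos _).le, e2⟩
  · have e1 : (Complex.sin (π * (((0 : ℝ) : ℂ) + v * Complex.I))).re = 0 := by
      rw [sin_re', r1, Real.sin_zero, zero_mul]
    have e2 : (Complex.sin (π * (((0 : ℝ) : ℂ) + v * Complex.I))).im = Real.sinh (π * v) := by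
      rw [sin_im', r1, r2, Real.cos_zero, one_mul]
    rw [Complex.arg_eq_neg_pi_div_two_iff]
    exact ⟨e1, by rw [e2]; exact Real.sinh_neg_iff.2 (by nlinarith)⟩
  · have e1 : (Complex.sin (π * (((0 : ℝ) : ℂ) + v * Complex.I))).re = 0 := by
      rw [sin_re', r1, Real.sin_zero, zero_mul]
    have e2 : (Complex.sin (π * (((0 : ℝ) : ℂ) + v * Complex.I))).im = Real.sinh (π * v) := by
      rw [sin_im', r1, r2, Real.cos_zero, one_mul]
    rw [Complex.arg_eq_pi_div_two_iff]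
    exact ⟨e1, by rw [e2]; exact Real.sinh_pos_iff.2 (by positivity)⟩
  · have hvv : -|v| ≤ v ∧ v ≤ |v| := ⟨neg_abs_le v, le_abs_self v⟩
    have b4 : π * v ≤ π * |v| := by nlinarith
    have b5 : -(π * |v|) ≤ π * v := by nlinarith
    have b3 : π * |v| < φ.im / 2 := by linarith
    have c1 : 0 < Real.cos (φ.re / 2) := Real.cos_pos_of_mem_Ioo ⟨by linarith, by linarith⟩
    have s1 : 0 < Real.sin (φ.re / 2) := Real.sin_pos_of_pos_of_lt_pi (by linarith) (by linarith)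
    have k1 : 0 < (Complex.cos (π * (((0 : ℝ) : ℂ) + v * Complex.I) + φ / 2)).re := by
      rw [cos_re', r3, zero_add]
      exact mul_pos c1 (Real.cosh_pos _)
    have k2 : (Complex.cos (π * (((0 : ℝ) : ℂ) + v * Complex.I) + φ / 2)).im < 0 := by
      rw [cos_im', r3, r4, zero_add]
      have : 0 < Real.sinh (π * v + φ.im / 2) := Real.sinh_pos_iff.2 (by linarith)
      have : 0 < Real.sin (φ.re / 2) * Real.sinh (π * v + φ.im / 2) := by positivity
      linarith
    have k3 : 0 < (Complex.cos (π * (((0 : ℝ) : ℂ) + v * Complex.I) - φ / 2)).re := by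
      rw [cos_re', r5, zero_sub, Real.cos_neg]
      exact mul_pos c1 (Real.cosh_pos _)
    have k4 : (Complex.cos (π * (((0 : ℝ) : ℂ) + v * Complex.I) - φ / 2)).im < 0 := by
      rw [cos_im', r5, r6, zero_sub, Real.sin_neg]
      have : Real.sinh (π * v - φ.im / 2) < 0 := Real.sinh_neg_iff.2 (by linarith)
      nlinarith
    have l1 := (abs_lt.1 (Complex.abs_arg_lt_pi_div_two_iff.2 (Or.inl k1))).1
    have l2 := (abs_lt.1 (Complex.abs_arg_lt_pi_div_two_iff.2 (Or.inl k3))).1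
    have l3 := Complex.arg_neg_iff.2 k2
    have l4 := Complex.arg_neg_iff.2 k4
    constructor <;> linarith

/-- `s = 1 / 2` -/
lemma arg1 {φ : ℂ} (h0 : 0 < φ.re) (h1 : φ.re < 33 / 16) {v : ℝ} :
    (v < 0 → Complex.arg (Complex.cos (π * (((1 / 2 : ℝ) : ℂ) + v * Complex.I))) = π / 2) ∧
    (0 < v → Complex.arg (Complex.cos (π * (((1 / 2 : ℝ) : ℂ) + v * Complex.I))) = -(π / 2)) ∧
    Complex.arg (Complex.sin (π * (((1 / 2 : ℝ) : ℂ) + v * Complex.I))) = 0 ∧
    (2 * π * |v| < φ.im →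
      -π < Complex.arg (Complex.cos (π * (((1 / 2 : ℝ) : ℂ) + v * Complex.I) + φ / 2)) +
        Complex.arg (Complex.cos (π * (((1 / 2 : ℝ) : ℂ) + v * Complex.I) - φ / 2))) := by
  have hp := Real.pi_pos
  have hp3 := Real.pi_gt_three
  obtain ⟨r1, r2, r3, r4, r5, r6⟩ := prs (1 / 2) v φ
  have e0 : π * (1 / 2) = π / 2 := by ring
  rw [e0] at r1 r3 r5
  refine ⟨fun hv => ?_, fun hv => ?_, ?_, fun hv => ?_⟩
  · have e1 : (Complex.cos (π * (((1 / 2 : ℝ) : ℂ) + v * Complex.I))).re = 0 := by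
      rw [cos_re', r1, Real.cos_pi_div_two, zero_mul]
    have e2 : (Complex.cos (π * (((1 / 2 : ℝ) : ℂ) + v * Complex.I))).im =
        -Real.sinh (π * v) := by
      rw [cos_im', r1, r2, Real.sin_pi_div_two, one_mul]
    rw [Complex.arg_eq_pi_div_two_iff]
    have : Real.sinh (π * v) < 0 := Real.sinh_neg_iff.2 (by nlinarith)
    exact ⟨e1, by rw [e2]; linarith⟩
  · have e1 : (Complex.cos (π * (((1 / 2 : ℝ) : ℂ) + v * Complex.I))).re = 0 := by
      rw [cos_re', r1, Real.cos_pi_div_two, zero_mul]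
    have e2 : (Complex.cos (π * (((1 / 2 : ℝ) : ℂ) + v * Complex.I))).im =
        -Real.sinh (π * v) := by
      rw [cos_im', r1, r2, Real.sin_pi_div_two, one_mul]
    rw [Complex.arg_eq_neg_pi_div_two_iff]
    have : 0 < Real.sinh (π * v) := Real.sinh_pos_iff.2 (by positivity)
    exact ⟨e1, by rw [e2]; linarith⟩
  · have e1 : (Complex.sin (π * (((1 / 2 : ℝ) : ℂ) + v * Complex.I))).re = Real.cosh (π * v) := by
      rw [sin_re', r1, r2, Real.sin_pi_div_two, one_mul]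
    have e2 : (Complex.sin (π * (((1 / 2 : ℝ) : ℂ) + v * Complex.I))).im = 0 := by
      rw [sin_im', r1, r2, Real.cos_pi_div_two, zero_mul]
    rw [Complex.arg_eq_zero_iff]
    exact ⟨by rw [e1]; exact (Real.cosh_pos _).le, e2⟩
  · have hvv : -|v| ≤ v ∧ v ≤ |v| := ⟨neg_abs_le v, le_abs_self v⟩
    have b4 : π * v ≤ π * |v| := by nlinarith
    have b5 : -(π * |v|) ≤ π * v := by nlinarith
    have b3 : π * |v| < φ.im / 2 := by linarith
    have c1 : 0 < Real.cos (φ.re / 2) := Real.cos_pos_of_mem_Ioo ⟨by linarith, by linarith⟩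
    have k4 : 0 ≤ (Complex.cos (π * (((1 / 2 : ℝ) : ℂ) + v * Complex.I) - φ / 2)).im := by
      rw [cos_im', r5, r6, Real.sin_pi_div_two_sub]
      have : Real.sinh (π * v - φ.im / 2) < 0 := Real.sinh_neg_iff.2 (by linarith)
      nlinarith
    have l1 := Complex.neg_pi_lt_arg (Complex.cos (π * (((1 / 2 : ℝ) : ℂ) + v * Complex.I) + φ / 2))
    have l2 := Complex.arg_nonneg_iff.2 k4
    linarith

/-- `0 < s < 1 / 2` -/
lemma argm {φ : ℂ} (h0 : 0 < φ.re) (h1 : φ.re < 33 / 16) {s v : ℝ} (hs : 0 < s) (hs1 : s < 1 / 2)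
    (hv1 : 2 * π * |v| < φ.im) :
    -(2 * Complex.arg (Complex.cos (π * ((s : ℂ) + v * Complex.I))) +
        (Complex.arg (Complex.cos (π * ((s : ℂ) + v * Complex.I) + φ / 2)) +
        Complex.arg (Complex.cos (π * ((s : ℂ) + v * Complex.I) - φ / 2))) -
        4 * Complex.arg (Complex.sin (π * ((s : ℂ) + v * Complex.I)))) +
    -(2 * Complex.arg (Complex.cos (π * ((s : ℂ) + (-v : ℝ) * Complex.I))) +
        (Complex.arg (Complex.cos (π * ((s : ℂ) + (-v : ℝ) * Complex.I) + φ / 2)) +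
        Complex.arg (Complex.cos (π * ((s : ℂ) + (-v : ℝ) * Complex.I) - φ / 2))) -
        4 * Complex.arg (Complex.sin (π * ((s : ℂ) + (-v : ℝ) * Complex.I)))) < 2 * π := by
  have hp := Real.pi_pos
  have hp3 := Real.pi_gt_three
  have hvv : -|v| ≤ v ∧ v ≤ |v| := ⟨neg_abs_le v, le_abs_self v⟩
  have b4 : π * v ≤ π * |v| := by nlinarith
  have b5 : -(π * |v|) ≤ π * v := by nlinarith
  have b3 : π * |v| < φ.im / 2 := by linarith
  have b1 : 0 < π * s := by positivity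
  have b2 : π * s < π / 2 := by nlinarith
  obtain ⟨⟨m1, m2⟩, -, -⟩ := mem2 h0 h1 hs.le hs1.le (Or.inr ⟨hs, hs1⟩) hv1
  have hconj : π * ((s : ℂ) + (-v : ℝ) * Complex.I) =
      (starRingEnd ℂ) (π * ((s : ℂ) + v * Complex.I)) := by
    simp
  have e1 : Complex.arg (Complex.cos (π * ((s : ℂ) + (-v : ℝ) * Complex.I))) =
      -Complex.arg (Complex.cos (π * ((s : ℂ) + v * Complex.I))) := by
    rw [hconj, Complex.cos_conj, Complex.arg_conj,
      if_neg (Complex.mem_slitPlane_iff_arg.1 (cos_mem m2)).1]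
  have e2 : Complex.arg (Complex.sin (π * ((s : ℂ) + (-v : ℝ) * Complex.I))) =
      -Complex.arg (Complex.sin (π * ((s : ℂ) + v * Complex.I))) := by
    rw [hconj, Complex.sin_conj, Complex.arg_conj,
      if_neg (Complex.mem_slitPlane_iff_arg.1 (sin_mem m1)).1]
  -- the two pairs
  have key : ∀ w : ℝ, 0 < π * w + φ.im / 2 →
      -π < Complex.arg (Complex.cos (π * ((s : ℂ) + w * Complex.I) + φ / 2)) +
        Complex.arg (Complex.cos (π * ((s : ℂ) + (-w : ℝ) * Complex.I) - φ / 2)) := by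
    intro w hw
    have p1 := pair (α := π * s + φ.re / 2) (β := φ.re / 2 - π * s) (Y := π * w + φ.im / 2)
      ⟨by linarith, by linarith⟩ ⟨by linarith, by linarith⟩ ⟨by linarith, by linarith⟩ hw
    have q1 : (π * ((s : ℂ) + w * Complex.I) + φ / 2) =
        ((π * s + φ.re / 2 : ℝ) : ℂ) + ((π * w + φ.im / 2 : ℝ) : ℂ) * Complex.I := by
      apply Complex.ext
      · simp
      · simp
    have q2 : (π * ((s : ℂ) + (-w : ℝ) * Complex.I) - φ / 2) =
        -(((φ.re / 2 - π * s : ℝ) : ℂ) + ((π * w + φ.im / 2 : ℝ) : ℂ) * Complex.I) := by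
      apply Complex.ext
      · simp
      · simp; ring
    rw [q1, q2, Complex.cos_neg]
    exact p1
  have k1 := key v (by linarith)
  have k2 := key (-v) (by linarith)
  rw [neg_neg] at k2
  rw [e1, e2]
  linarith

lemma le_of_der {f f' : ℝ → ℝ} {a b : ℝ} (hab : a ≤ b) (h : ∀ x ∈ Icc a b, HasDerivAt f (f' x) x)
    (h2 : ∀ x ∈ Icc a b, f' x ≤ 0) : f b ≤ f a := by
  rcases hab.eq_or_lt with rfl | hab
  · exact le_rfl
  · obtain ⟨c, hc, he⟩ := exists_hasDerivAt_eq_slope f f' hab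
      (fun x hx => (h x hx).continuousAt.continuousWithinAt) (fun x hx => h x ⟨hx.1.le, hx.2.le⟩)
    have h3 := h2 c ⟨hc.1.le, hc.2.le⟩
    rw [he, div_le_iff₀ (by linarith)] at h3
    linarith

lemma lt_of_der {f f' : ℝ → ℝ} {a b : ℝ} (hab : a < b) (h : ∀ x ∈ Icc a b, HasDerivAt f (f' x) x)
    (h2 : ∀ x ∈ Icc a b, f' x < 0) : f b < f a := by
  obtain ⟨c, hc, he⟩ := exists_hasDerivAt_eq_slope f f' hab
    (fun x hx => (h x hx).continuousAt.continuousWithinAt) (fun x hx => h x ⟨hx.1.le, hx.2.le⟩)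
  have h3 := h2 c ⟨hc.1.le, hc.2.le⟩
  rw [he, div_lt_iff₀ (by linarith)] at h3
  linarith

lemma le_add_of_der {f f' : ℝ → ℝ} {a b C : ℝ} (hab : a ≤ b)
    (h : ∀ x ∈ Icc a b, HasDerivAt f (f' x) x) (h2 : ∀ x ∈ Icc a b, |f' x| ≤ C) :
    f b ≤ f a + C * (b - a) := by
  have := le_of_der (f := fun x => f x - C * x) (f' := fun x => f' x - C) hab
    (fun x hx => by
      have h3 := (h x hx).sub ((hasDerivAt_id x).const_mul C)
      exact h3.congr_deriv (by ring))
    (fun x hx => by have := (abs_le.1 (h2 x hx)).2; linarith)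
  linarith

lemma ev_lt {f : ℝ → ℝ → ℝ} {s₀ c d M : ℝ}
    (hf : ∀ v ∈ Icc c d, ContinuousAt (fun p : ℝ × ℝ => f p.1 p.2) (s₀, v))
    (hM : ∀ v ∈ Icc c d, f s₀ v < M) : ∀ᶠ s in 𝓝 s₀, ∀ v ∈ Icc c d, f s v < M :=
  isCompact_Icc.eventually_forall_of_forall_eventually fun v hv =>
    (hf v hv).eventually_lt continuousAt_const (hM v hv)

theorem side (hF : S_FLAT) : S_SIDE := by
  intro φ hφ h0
  have hp := Real.pi_pos
  have h1 : φ.re < 33 / 16 := (abs_lt.1 hφ.1).2
  obtain ⟨f1, f2, f3, f4, f5⟩ := hF φ hφ h0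
  obtain ⟨D, hD⟩ : ∃ D : ℝ → ℝ → ℝ, D = fun s v : ℝ => (TH 0 φ (s + v * Complex.I)).re := ⟨_, rfl⟩
  obtain ⟨D', hD'⟩ : ∃ D' : ℝ → ℝ → ℝ, D' = fun s v : ℝ =>
      (-(2 * Complex.arg (Complex.cos (π * ((s : ℂ) + v * Complex.I))) +
        (Complex.arg (Complex.cos (π * ((s : ℂ) + v * Complex.I) + φ / 2)) +
        Complex.arg (Complex.cos (π * ((s : ℂ) + v * Complex.I) - φ / 2))) -
        4 * Complex.arg (Complex.sin (π * ((s : ℂ) + v * Complex.I))))) := ⟨_, rfl⟩
  obtain ⟨M, hM⟩ : ∃ M : ℝ, M = (sg 0 φ).re := ⟨_, rfl⟩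
  obtain ⟨h, hh⟩ : ∃ h : ℝ, h = -(dst 0 φ).im := ⟨_, rfl⟩
  have hpos : 0 < h := by rw [hh]; linarith
  have hb : 2 * π * h < φ.im := by
    rw [abs_of_neg f1] at f4
    rw [hh]
    exact f4
  have hsm : ∀ v : ℝ, |v| ≤ h → 2 * π * |v| < φ.im := fun v hv =>
    lt_of_le_of_lt (by nlinarith) hb
  have hbot : ∀ x : ℝ, 0 ≤ x → x ≤ 1 / 2 → x ≠ (dst 0 φ).re → D x (-h) < M := by
    intro x hx hx1 hx2
    rw [hD, hM, hh, neg_neg]
    exact f5 x hx hx1 hx2
  have hbot' : ∀ x : ℝ, 0 ≤ x → x ≤ 1 / 2 → D x (-h) ≤ M := by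
    intro x hx hx1
    by_cases hx2 : x = (dst 0 φ).re
    · rw [hD, hM, hh, neg_neg, hx2]
      simp only
      rw [Complex.re_add_im]
      rfl
    · exact (hbot x hx hx1 hx2).le
  have hder : ∀ s v : ℝ, 0 ≤ s → s ≤ 1 / 2 → (v ≠ 0 ∨ (0 < s ∧ s < 1 / 2)) → |v| ≤ h →
      HasDerivAt (D s) (D' s v) v := by
    intro s v hs hs1 hv hv1
    rw [hD, hD']
    exact dv h0 h1 hs hs1 hv (hsm v hv1)
  have hcts : ∀ s v : ℝ, 0 ≤ s → s ≤ 1 / 2 → (v ≠ 0 ∨ (0 < s ∧ s < 1 / 2)) → |v| ≤ h →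
      ContinuousAt (fun p : ℝ × ℝ => D p.1 p.2) (s, v) := by
    intro s v hs hs1 hv hv1
    rw [hD]
    exact cts h0 h1 hs hs1 hv (hsm v hv1)
  have hctl : ∀ s v : ℝ, 0 ≤ s → s ≤ 1 / 2 → (v ≠ 0 ∨ (0 < s ∧ s < 1 / 2)) → |v| ≤ h →
      ContinuousAt (fun x : ℝ => D x v) s := by
    intro s v hs hs1 hv hv1
    exact ContinuousAt.comp (f := fun x : ℝ => (x, v)) (g := fun p : ℝ × ℝ => D p.1 p.2)
      (x := s) (hcts s v hs hs1 hv hv1) (by fun_prop)
  have hbd : ∀ s v : ℝ, |D' s v| ≤ 8 * π := by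
    intro s v
    rw [hD']
    simp only
    have a1 := abs_le.1 (Complex.abs_arg_le_pi (Complex.cos (π * ((s : ℂ) + v * Complex.I))))
    have a2 := abs_le.1
      (Complex.abs_arg_le_pi (Complex.cos (π * ((s : ℂ) + v * Complex.I) + φ / 2)))
    have a3 := abs_le.1
      (Complex.abs_arg_le_pi (Complex.cos (π * ((s : ℂ) + v * Complex.I) - φ / 2)))
    have a4 := abs_le.1 (Complex.abs_arg_le_pi (Complex.sin (π * ((s : ℂ) + v * Complex.I))))
    rw [abs_le]
    constructor <;> linarith [a1.1, a1.2, a2.1, a2.2, a3.1, a3.2, a4.1, a4.2]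
  -- the top side
  have htop : ∀ s : ℝ, 0 < s → s < 1 / 2 → D s h - 2 * π * h < D s (-h) := by
    intro s hs hs1
    have := lt_of_der (f := fun v => D s v - D s (-v) - 2 * π * v)
      (f' := fun v => D' s v + D' s (-v) - 2 * π) hpos
      (fun v hv => by
        have hv1 : |v| ≤ h := by rw [abs_of_nonneg hv.1]; exact hv.2
        have k1 := hder s v hs.le hs1.le (Or.inr ⟨hs, hs1⟩) hv1
        have k2 := hder s (-v) hs.le hs1.le (Or.inr ⟨hs, hs1⟩) (by rwa [abs_neg])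
        have k3 := HasDerivAt.comp v k2 (hasDerivAt_neg v)
        have k4 := (k1.sub k3).sub ((hasDerivAt_id v).const_mul (2 * π))
        refine (k4.congr_deriv ?_)
        ring)
      (fun v hv => by
        have hv1 : |v| ≤ h := by rw [abs_of_nonneg hv.1]; exact hv.2
        have k := argm h0 h1 hs hs1 (hsm v hv1)
        rw [hD']
        simp only
        linarith)
    simp only [neg_zero, sub_self, mul_zero] at this
    linarith
  have htop0 : D 0 h - 2 * π * h ≤ D 0 (-h) := by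
    have c1 := (hctl 0 h le_rfl (by norm_num) (Or.inl hpos.ne') (by rw [abs_of_pos hpos])).tendsto
    have c2 := (hctl 0 (-h) le_rfl (by norm_num) (Or.inl (by linarith [hpos] |> ne_of_lt))
      (by rw [abs_neg, abs_of_pos hpos])).tendsto
    refine le_of_tendsto_of_tendsto ((c1.sub_const (2 * π * h)).mono_left nhdsWithin_le_nhds)
      (c2.mono_left nhdsWithin_le_nhds) (b := 𝓝[>] (0 : ℝ)) ?_
    filter_upwards [Ioo_mem_nhdsGT (show (0 : ℝ) < 1 / 2 by norm_num)] with s hs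
    exact (htop s hs.1 hs.2).le
  -- the left side
  have hl1 : ∀ v : ℝ, -h ≤ v → v < 0 → D 0 v ≤ D 0 (-h) := by
    intro v hv hv1
    refine le_of_der (f := D 0) (f' := D' 0) hv (fun w hw => ?_) (fun w hw => ?_)
    · have hw0 : w < 0 := hw.2.trans_lt hv1
      exact hder 0 w le_rfl (by norm_num) (Or.inl hw0.ne) (by rw [abs_of_neg hw0]; linarith [hw.1])
    · have hw0 : w < 0 := hw.2.trans_lt hv1
      obtain ⟨a1, a2, -, a4⟩ := arg0 h0 h1 (v := w)
      obtain ⟨a5, a6⟩ := a4 (hsm w (by rw [abs_of_neg hw0]; linarith [hw.1]))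
      rw [hD']
      simp only
      rw [a1, a2 hw0]
      linarith
  have hl2 : ∀ v : ℝ, 0 < v → v ≤ h → D 0 v - 2 * π * v ≤ D 0 h - 2 * π * h := by
    intro v hv hv1
    have := le_of_der (f := fun v => -(D 0 v - 2 * π * v)) (f' := fun v => -(D' 0 v - 2 * π)) hv1
      (fun w hw => by
        have hw0 : 0 < w := hv.trans_le hw.1
        have k1 := hder 0 w le_rfl (by norm_num) (Or.inl hw0.ne')
          (by rw [abs_of_pos hw0]; exact hw.2)
        have k4 := (k1.sub ((hasDerivAt_id w).const_mul (2 * π))).neg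
        refine (k4.congr_deriv ?_)
        ring)
      (fun w hw => by
        have hw0 : 0 < w := hv.trans_le hw.1
        obtain ⟨a1, -, a3, a4⟩ := arg0 h0 h1 (v := w)
        obtain ⟨a5, a6⟩ := a4 (hsm w (by rw [abs_of_pos hw0]; exact hw.2))
        rw [hD']
        simp only
        rw [a1, a3 hw0]
        linarith)
    linarith
  -- the right side
  have hr1 : ∀ v : ℝ, -h ≤ v → v < 0 → D (1 / 2) v ≤ D (1 / 2) (-h) := by
    intro v hv hv1
    refine le_of_der (f := D (1 / 2)) (f' := D' (1 / 2)) hv (fun w hw => ?_) (fun w hw => ?_)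
    · have hw0 : w < 0 := hw.2.trans_lt hv1
      exact hder (1 / 2) w (by norm_num) le_rfl (Or.inl hw0.ne)
        (by rw [abs_of_neg hw0]; linarith [hw.1])
    · have hw0 : w < 0 := hw.2.trans_lt hv1
      obtain ⟨a1, -, a3, a4⟩ := arg1 h0 h1 (v := w)
      have a5 := a4 (hsm w (by rw [abs_of_neg hw0]; linarith [hw.1]))
      rw [hD']
      simp only
      rw [a1 hw0, a3]
      linarith
  have hr2 : ∀ v v' : ℝ, 0 < v → v ≤ v' → v' ≤ h →
      D (1 / 2) v' - 2 * π * v' ≤ D (1 / 2) v - 2 * π * v := by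
    intro v v' hv hv1 hv2
    exact le_of_der (f := fun v => D (1 / 2) v - 2 * π * v) (f' := fun v => D' (1 / 2) v - 2 * π)
      hv1
      (fun w hw => by
        have hw0 : 0 < w := hv.trans_le hw.1
        have k1 := hder (1 / 2) w (by norm_num) le_rfl (Or.inl hw0.ne')
          (by rw [abs_of_pos hw0]; exact hw.2.trans hv2)
        have k4 := (k1.sub ((hasDerivAt_id w).const_mul (2 * π)))
        refine (k4.congr_deriv ?_)
        ring)
      (fun w hw => by
        have hw0 : 0 < w := hv.trans_le hw.1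
        obtain ⟨-, a2, a3, a4⟩ := arg1 h0 h1 (v := w)
        have a5 := a4 (hsm w (by rw [abs_of_pos hw0]; exact hw.2.trans hv2))
        rw [hD']
        simp only
        rw [a2 hw0, a3]
        linarith)
  -- near the corners
  have hcor : ∀ s v w : ℝ, 0 < s → s < 1 / 2 → -h ≤ v → v ≤ w → w ≤ h →
      D s w ≤ D s v + 8 * π * (w - v) := by
    intro s v w hs hs1 hv hvw hw
    exact le_add_of_der (f := D s) (f' := D' s) hvw
      (fun x hx => hder s x hs.le hs1.le (Or.inr ⟨hs, hs1⟩)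
        (abs_le.2 ⟨hv.trans hx.1, hx.2.trans hw⟩)) (fun x _ => hbd s x)
  -- constants
  obtain ⟨η, hη0, hη1, hη2⟩ : ∃ η : ℝ, 0 < η ∧ D 0 (-h) ≤ M - η ∧ D (1 / 2) (-h) ≤ M - η := by
    have e1 := hbot 0 le_rfl (by norm_num) f2.ne
    have e2 := hbot (1 / 2) (by norm_num) le_rfl f3.ne'
    refine ⟨min (M - D 0 (-h)) (M - D (1 / 2) (-h)), lt_min (by linarith) (by linarith), ?_, ?_⟩
    · have := min_le_left (M - D 0 (-h)) (M - D (1 / 2) (-h))
      linarith
    · have := min_le_right (M - D 0 (-h)) (M - D (1 / 2) (-h))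
      linarith
  obtain ⟨u, hu0, huh, hu1⟩ : ∃ u : ℝ, 0 < u ∧ u ≤ h ∧ 16 * π * u ≤ η / 4 := by
    refine ⟨min h (η / (64 * π)), lt_min hpos (by positivity), min_le_left _ _, ?_⟩
    have := min_le_right h (η / (64 * π))
    have h2 : 16 * π * (η / (64 * π)) = η / 4 := by field_simp; norm_num
    rw [← h2]
    exact mul_le_mul_of_nonneg_left this (by positivity)
  have hcor1 : D (1 / 2) u ≤ D (1 / 2) (-u) + 16 * π * u := by
    have c1 := (hctl (1 / 2) u (by norm_num) le_rfl (Or.inl hu0.ne')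
      (by rw [abs_of_pos hu0]; exact huh)).tendsto
    have c2 := (hctl (1 / 2) (-u) (by norm_num) le_rfl (Or.inl (by linarith [hu0] |> ne_of_lt))
      (by rw [abs_neg, abs_of_pos hu0]; exact huh)).tendsto
    refine le_of_tendsto_of_tendsto (c1.mono_left nhdsWithin_le_nhds)
      ((c2.add_const (16 * π * u)).mono_left nhdsWithin_le_nhds) (b := 𝓝[<] (1 / 2 : ℝ)) ?_
    filter_upwards [Ioo_mem_nhdsLT (show (0 : ℝ) < 1 / 2 by norm_num)] with s hs
    have := hcor s (-u) u hs.1 hs.2 (by linarith) (by linarith) huh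
    linarith
  have hcn : ∀ (s₀ v : ℝ) (c : ℝ), 0 ≤ s₀ → s₀ ≤ 1 / 2 → v ≠ 0 → |v| ≤ h →
      ContinuousAt (fun p : ℝ × ℝ => D p.1 p.2 - c * p.2) (s₀, v) := fun s₀ v c h2 h3 h4 h5 =>
    (hcts s₀ v h2 h3 (Or.inl h4) h5).sub (by fun_prop)
  -- left
  have L1 := ev_lt (f := D) (s₀ := 0) (c := -h) (d := -u) (M := M - η / 2)
    (fun v hv => hcts 0 v le_rfl (by norm_num) (Or.inl (by linarith [hv.2] |> ne_of_lt))
      (abs_le.2 ⟨hv.1, by linarith [hv.2]⟩))
    (fun v hv => by linarith [hl1 v hv.1 (by linarith [hv.2])])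
  have L2 := ev_lt (f := fun s v => D s v - 2 * π * v) (s₀ := 0) (c := u) (d := h)
    (M := M - η / 2)
    (fun v hv => hcn 0 v (2 * π) le_rfl (by norm_num) (by linarith [hv.1] |> ne_of_gt)
      (abs_le.2 ⟨by linarith [hv.1], hv.2⟩))
    (fun v hv => by
      have := hl2 v (by linarith [hv.1]) hv.2
      linarith)
  have R1 := ev_lt (f := D) (s₀ := 1 / 2) (c := -h) (d := -u) (M := M - η / 2)
    (fun v hv => hcts (1 / 2) v (by norm_num) le_rfl (Or.inl (by linarith [hv.2] |> ne_of_lt))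
      (abs_le.2 ⟨hv.1, by linarith [hv.2]⟩))
    (fun v hv => by linarith [hr1 v hv.1 (by linarith [hv.2])])
  have R2 := ev_lt (f := fun s v => D s v - 2 * π * v) (s₀ := 1 / 2) (c := u) (d := h)
    (M := M - η / 2)
    (fun v hv => hcn (1 / 2) v (2 * π) (by norm_num) le_rfl (by linarith [hv.1] |> ne_of_gt)
      (abs_le.2 ⟨by linarith [hv.1], hv.2⟩))
    (fun v hv => by
      have k1 := hr2 u v hu0 hv.1 hv.2
      have k2 := hr1 (-u) (by linarith) (by linarith)
      have k3 : 0 < 2 * π * u := by positivity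
      linarith)
  obtain ⟨l, hl0, hl⟩ := Metric.eventually_nhds_iff.1 (L1.and L2)
  obtain ⟨r, hr0, hr⟩ := Metric.eventually_nhds_iff.1 (R1.and R2)
  refine ⟨min (l / 2) ((dst 0 φ).re / 2), max (1 / 2 - r / 2) (((dst 0 φ).re + 1 / 2) / 2),
    lt_min (by linarith) (by linarith), (min_le_right _ _).trans_lt (by linarith),
    lt_max_of_lt_right (by linarith), max_lt (by linarith) (by linarith), ?_⟩
  intro a b ha ha1 hb1 hb2
  have ha2 : a ≤ l / 2 := ha1.trans (min_le_left _ _)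
  have ha3 : a ≤ (dst 0 φ).re / 2 := ha1.trans (min_le_right _ _)
  have hb3 : 1 / 2 - r / 2 ≤ b := (le_max_left _ _).trans hb1
  have hb4 : ((dst 0 φ).re + 1 / 2) / 2 ≤ b := (le_max_right _ _).trans hb1
  obtain ⟨la1, la2⟩ := hl (y := a) (by rw [Real.dist_eq, sub_zero, abs_of_pos ha]; linarith)
  obtain ⟨rb1, rb2⟩ := hr (y := b)
    (by rw [Real.dist_eq, abs_of_nonpos (by linarith)]; linarith)
  -- all `v`
  have side : ∀ s : ℝ, 0 < s → s < 1 / 2 → (∀ v ∈ Icc (-h) (-u), D s v < M - η / 2) →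
      (∀ v ∈ Icc u h, D s v - 2 * π * v < M - η / 2) →
      (∀ v : ℝ, -h ≤ v → v ≤ 0 → D s v < M) ∧ ∀ v : ℝ, 0 ≤ v → v ≤ h → D s v - 2 * π * v < M := by
    intro s hs hs1 k1 k2
    have mid : ∀ v : ℝ, -u ≤ v → v ≤ u → D s v < M := by
      intro v hv hv1
      have := hcor s (-u) v hs hs1 (by linarith) hv (by linarith)
      have k3 := k1 (-u) ⟨by linarith, le_rfl⟩
      have k4 : 8 * π * (v - -u) ≤ 16 * π * u := by nlinarith
      linarith
    refine ⟨fun v hv hv1 => ?_, fun v hv hv1 => ?_⟩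
    · rcases le_total v (-u) with h2 | h2
      · have := k1 v ⟨hv, h2⟩
        linarith
      · exact mid v h2 (by linarith)
    · rcases le_total u v with h2 | h2
      · have := k2 v ⟨h2, hv1⟩
        linarith
      · have := mid v (by linarith) h2
        have h3 : 0 ≤ 2 * π * v := by positivity
        linarith
  obtain ⟨sa1, sa2⟩ := side a ha (by linarith) la1 la2
  obtain ⟨sb1, sb2⟩ := side b (by linarith) hb2 rb1 rb2
  have hhn : (dst 0 φ).im = -h := by rw [hh, neg_neg]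
  refine ⟨fun y hy hy1 => ?_, fun y hy hy1 => ?_, fun x hx hx1 => ?_⟩
  · rw [hhn] at hy
    have k1 := sa1 y hy hy1
    have k2 := sb1 y hy hy1
    rw [hD, hM] at k1 k2
    exact ⟨k1, k2⟩
  · rw [hhn, neg_neg] at hy1
    have k1 := sa2 y hy hy1
    have k2 := sb2 y hy hy1
    rw [hD, hM] at k1 k2
    exact ⟨k1, k2⟩
  · have k1 := htop x (by linarith) (by linarith)
    have k2 := hbot' x (by linarith) (by linarith)
    rw [hhn]
    have e1 : (x : ℂ) - ((-h : ℝ) : ℂ) * Complex.I = (x : ℂ) + (h : ℂ) * Complex.I := by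
      push_cast
      ring
    rw [e1]
    have k3 : D x h = (TH 0 φ (x + h * Complex.I)).re := by rw [hD]
    rw [← k3, ← hM]
    linarith

end Pool.Agent.N561.SD
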