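import Pool.Agent.N561.A.Stm

/-!
# Small vertices: the outer integral, statements
-/

set_option autoImplicit false

namespace Pool.Agent.N561

open Filter Finset Topology Metric
open Pool.Agent.W711.HT
open scoped Real

/-- the points of the path above the height `τ₁`: up at `± x₁` to the height `y₁`, horizontally to
`± x₂`, up to the height `y₂`, and along the horizontal line at the height `y₂` -/
def Pth (x₁ x₂ y₁ y₂ τ₁ : ℝ) : Set ℂ := {w | (|w.re| = x₁ ∧ τ₁ ≤ w.im ∧ w.im ≤ y₁) ∨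
  (x₂ ≤ |w.re| ∧ |w.re| ≤ x₁ ∧ w.im = y₁) ∨ (|w.re| = x₂ ∧ y₁ ≤ w.im ∧ w.im ≤ y₂) ∨
  (|w.re| ≤ x₂ ∧ w.im = y₂)}

/-- job F1: the integral of a function at a small vertex, upper bound, uniformly in the function.
`P` is the function, `PL` its lower part, `V` the exponent -/
def S_OUTB : Prop := ∀ (a : ℤ) (x₁ x₂ y₁ y₂ τ₁ : ℝ), 0 < x₂ → x₂ ≤ x₁ → x₁ < π → 0 < τ₁ →
  τ₁ ≤ y₁ → y₁ ≤ y₂ → ∀ ε : ℝ, 0 < ε → ∀ᶠ N : ℕ in atTop, ∀ (P PL : ℂ → ℂ) (V : ℝ),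
  Differentiable ℂ P → Differentiable ℂ PL →
  (∀ x y : ℝ, x₁ ≤ |x| → |x| ≤ π → |y| ≤ τ₁ →
    ‖PL (x + y * Complex.I)‖ ≤ Real.exp (N * (V - |(a : ℝ)| * τ₁ / 2))) →
  (∀ w ∈ Pth x₁ x₂ y₁ y₂ τ₁,
    ‖Complex.exp (N * (Complex.I * a * w ^ 2 / (4 * π) + Complex.I * w)) * PL w‖ ≤
      Real.exp (N * V)) →
  (∀ x y : ℝ, |x| ≤ π → |y| ≤ 1 / N →
    ‖P (x + y * Complex.I) - PL (x + y * Complex.I)‖ ≤ Real.exp (N * V)) →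
  ‖upp (1 / N) fun φ => Ea a N φ * P φ * kr N φ‖ ≤ Real.exp (N * (V + ε))

/-- job F2: the integral of a function at a small vertex, asymptotics -/
def S_OUT : Prop := ∀ (a : ℤ) (U : Set ℂ) (G : ℂ → ℂ) (x₁ x₂ y₁ τ₁ : ℝ) (z : ℂ), IsOpen U →
  DifferentiableOn ℂ G U → x₂ ≤ x₁ → x₁ < π → 0 < τ₁ → τ₁ ≤ y₁ → y₁ ≤ z.im → |z.re| < x₂ →
  Pth x₁ x₂ y₁ z.im τ₁ ⊆ U → deriv (qq a G) z = 0 → (deriv (deriv (qq a G)) z).re < 0 →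
  (∀ w ∈ Pth x₁ x₂ y₁ z.im τ₁, w ≠ z → (qq a G w).re < (qq a G z).re) →
  ∀ (P PL : ℕ → ℂ → ℂ) (B D : ℝ), (∀ N, Differentiable ℂ (P N)) →
  (∀ N, Differentiable ℂ (PL N)) → (∀ V ⊆ U, IsCompact V → MW PL G V) →
  (∀ᶠ N : ℕ in atTop, ∀ x y : ℝ, x₁ ≤ |x| → |x| ≤ π → |y| ≤ τ₁ →
    ‖PL N (x + y * Complex.I)‖ ≤ Real.exp (N * B)) → B + |(a : ℝ)| * τ₁ / 2 < (qq a G z).re →
  (∀ᶠ N : ℕ in atTop, ∀ x y : ℝ, |x| ≤ π → |y| ≤ 1 / N →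
    ‖P N (x + y * Complex.I) - PL N (x + y * Complex.I)‖ ≤ Real.exp (N * D)) →
  D < (qq a G z).re →
  Tendsto (fun N : ℕ => Real.log ‖upp (1 / N) fun φ => Ea a N φ * P N φ * kr N φ‖ / N) atTop
    (𝓝 (qq a G z).re)

/-- the product over `j` neighbours of a small vertex.  `X` is the function, `XL` its lower part,
`f` the sum of the constants and `Φ` the potential -/
structure PSm (U : Set ℂ) (x₁ τ₁ ε₁ ε₂ : ℝ) (j : ℕ) (X XL : ℕ → ℂ → ℂ) (f : ℂ) (Φ : ℂ → ℂ) :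
    Prop where
  an : ∀ N, Differentiable ℂ (X N)
  anL : ∀ N, Differentiable ℂ (XL N)
  pos : 0 ≤ f.re
  Fan : DifferentiableOn ℂ Φ U
  cl : ∀ φ ∈ U, ‖Φ φ - f - j * sg 0 φ‖ ≤ j * ε₁
  mw : ∀ V ⊆ U, IsCompact V → MW XL Φ V
  rb : ∀ᶠ N : ℕ in atTop, ∀ x y : ℝ, x₁ ≤ |x| → |x| ≤ π → |y| ≤ τ₁ →
    ‖XL N (x + y * Complex.I)‖ ≤ Real.exp (N * (f.re + j * (sx x₁ + ε₂)))
  gl : ∀ ε : ℝ, 0 < ε → ∀ᶠ N : ℕ in atTop, ∀ x y : ℝ, |x| ≤ π → |y| ≤ 1 / N →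
    ‖X N (x + y * Complex.I)‖ ≤ Real.exp (N * (f.re + j * (2 * bet) + ε)) ∧
    ‖XL N (x + y * Complex.I)‖ ≤ Real.exp (N * (f.re + j * (2 * bet) + ε)) ∧
    ‖X N (x + y * Complex.I) - XL N (x + y * Complex.I)‖ ≤
      Real.exp (N * (f.re + (j - 1) * (2 * bet) + ε))

end Pool.Agent.N561
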